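import Pool.Agent.H705.FP.Stm2

/-! # TRI: integral of a triangle times a cosine (helper880 for helper705) -/

set_option autoImplicit false

namespace Pool.Agent.H880.FP.TRI

open MeasureTheory Filter Topology Finset
open Pool.Agent.H705.FP

/-- the two halves -/
theorem split (c l r : ℝ) : ∫ y in c - 1..c + 1, (1 - |y - c|) * Real.cos (l * y + r) =
    (∫ y in c - 1..c, (1 + (y - c)) * Real.cos (l * y + r)) +
      ∫ y in c..c + 1, (1 - (y - c)) * Real.cos (l * y + r) := by
  have hc : Continuous fun y : ℝ => (1 - |y - c|) * Real.cos (l * y + r) := by fun_prop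
  rw [← intervalIntegral.integral_add_adjacent_intervals (hc.intervalIntegrable (c - 1) c)
    (hc.intervalIntegrable c (c + 1))]
  congr 1
  · refine intervalIntegral.integral_congr fun y hy => ?_
    rw [Set.uIcc_of_le (by linarith)] at hy
    show (1 - |y - c|) * Real.cos (l * y + r) = (1 + (y - c)) * Real.cos (l * y + r)
    rw [abs_of_nonpos (by linarith [hy.2])]
    ring
  · refine intervalIntegral.integral_congr fun y hy => ?_
    rw [Set.uIcc_of_le (by linarith)] at hy
    show (1 - |y - c|) * Real.cos (l * y + r) = (1 - (y - c)) * Real.cos (l * y + r)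
    rw [abs_of_nonneg (by linarith [hy.1])]

theorem lin (l r y : ℝ) : HasDerivAt (fun y : ℝ => l * y + r) l y := by
  have h := ((hasDerivAt_id y).const_mul l).add_const r
  rw [mul_one] at h
  exact h

theorem half1 (c r : ℝ) {l : ℝ} (hl : l ≠ 0) :
    ∫ y in c - 1..c, (1 + (y - c)) * Real.cos (l * y + r) =
      Real.sin (l * c + r) / l + Real.cos (l * c + r) / l ^ 2 - Real.cos (l * (c - 1) + r) / l ^ 2 := by
  have hd : ∀ y ∈ Set.uIcc (c - 1) c, HasDerivAt
      (fun y : ℝ => (1 + (y - c)) * (Real.sin (l * y + r) / l) + Real.cos (l * y + r) / l ^ 2)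
      ((1 + (y - c)) * Real.cos (l * y + r)) y := by
    intro y _
    have h1 : HasDerivAt (fun y : ℝ => 1 + (y - c)) 1 y :=
      ((hasDerivAt_id y).sub_const c).const_add 1
    have h2 := (h1.mul ((lin l r y).sin.div_const l)).add ((lin l r y).cos.div_const (l ^ 2))
    refine h2.congr_deriv ?_
    field_simp
    ring
  rw [intervalIntegral.integral_eq_sub_of_hasDerivAt hd
    ((by fun_prop : Continuous fun y : ℝ => (1 + (y - c)) * Real.cos (l * y + r)).intervalIntegrable _ _)]
  ring

theorem half2 (c r : ℝ) {l : ℝ} (hl : l ≠ 0) :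
    ∫ y in c..c + 1, (1 - (y - c)) * Real.cos (l * y + r) =
      Real.cos (l * c + r) / l ^ 2 - Real.sin (l * c + r) / l - Real.cos (l * (c + 1) + r) / l ^ 2 := by
  have hd : ∀ y ∈ Set.uIcc c (c + 1), HasDerivAt
      (fun y : ℝ => (1 - (y - c)) * (Real.sin (l * y + r) / l) - Real.cos (l * y + r) / l ^ 2)
      ((1 - (y - c)) * Real.cos (l * y + r)) y := by
    intro y _
    have h1 : HasDerivAt (fun y : ℝ => 1 - (y - c)) (-1) y :=
      ((hasDerivAt_id y).sub_const c).const_sub 1
    have h2 := (h1.mul ((lin l r y).sin.div_const l)).sub ((lin l r y).cos.div_const (l ^ 2))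
    refine h2.congr_deriv ?_
    field_simp
    ring
  rw [intervalIntegral.integral_eq_sub_of_hasDerivAt hd
    ((by fun_prop : Continuous fun y : ℝ => (1 - (y - c)) * Real.cos (l * y + r)).intervalIntegrable _ _)]
  ring

theorem value (c r : ℝ) {l : ℝ} (hl : l ≠ 0) :
    ∫ y in c - 1..c + 1, (1 - |y - c|) * Real.cos (l * y + r) =
      2 * (1 - Real.cos l) / l ^ 2 * Real.cos (l * c + r) := by
  rw [split, half1 c r hl, half2 c r hl]
  have h1 : Real.cos (l * (c - 1) + r) = Real.cos (l * c + r) * Real.cos l +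
      Real.sin (l * c + r) * Real.sin l := by
    rw [← Real.cos_sub]
    congr 1
    ring
  have h2 : Real.cos (l * (c + 1) + r) = Real.cos (l * c + r) * Real.cos l -
      Real.sin (l * c + r) * Real.sin l := by
    rw [← Real.cos_add]
    congr 1
    ring
  rw [h1, h2]
  ring

theorem value0 (c r : ℝ) :
    ∫ y in c - 1..c + 1, (1 - |y - c|) * Real.cos (0 * y + r) = Real.cos r := by
  rw [split]
  simp only [zero_mul, zero_add]
  have h1 : ∫ y in c - 1..c, (1 + (y - c)) * Real.cos r = Real.cos r / 2 := by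
    have hd : ∀ y ∈ Set.uIcc (c - 1) c, HasDerivAt
        (fun y : ℝ => (1 + (y - c)) ^ 2 / 2 * Real.cos r) ((1 + (y - c)) * Real.cos r) y := by
      intro y _
      have h1 : HasDerivAt (fun y : ℝ => 1 + (y - c)) 1 y :=
        ((hasDerivAt_id y).sub_const c).const_add 1
      have h2 := ((h1.pow 2).div_const 2).mul_const (Real.cos r)
      refine h2.congr_deriv ?_
      norm_num
    rw [intervalIntegral.integral_eq_sub_of_hasDerivAt hd
      ((by fun_prop : Continuous fun y : ℝ => (1 + (y - c)) * Real.cos r).intervalIntegrable _ _)]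
    ring
  have h2 : ∫ y in c..c + 1, (1 - (y - c)) * Real.cos r = Real.cos r / 2 := by
    have hd : ∀ y ∈ Set.uIcc c (c + 1), HasDerivAt
        (fun y : ℝ => -((1 - (y - c)) ^ 2 / 2 * Real.cos r)) ((1 - (y - c)) * Real.cos r) y := by
      intro y _
      have h1 : HasDerivAt (fun y : ℝ => 1 - (y - c)) (-1) y :=
        ((hasDerivAt_id y).sub_const c).const_sub 1
      have h2 := (((h1.pow 2).div_const 2).mul_const (Real.cos r)).neg
      refine h2.congr_deriv ?_
      norm_num
      ring
    rw [intervalIntegral.integral_eq_sub_of_hasDerivAt hd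
      ((by fun_prop : Continuous fun y : ℝ => (1 - (y - c)) * Real.cos r).intervalIntegrable _ _)]
    ring
  rw [h1, h2]
  ring

theorem T_TRI : P_TRI := by
  intro c l r
  rcases eq_or_ne l 0 with h | h
  · rw [h, value0]
    have := Real.abs_cos_le_one r
    norm_num
    linarith
  · rw [value c r h, abs_mul]
    have hl2 : 0 < l ^ 2 := by positivity
    have h1 := Real.one_sub_sq_div_two_le_cos (x := l)
    have h2 := Real.neg_one_le_cos l
    have h3 := Real.cos_le_one l
    have h4 : 0 ≤ 2 * (1 - Real.cos l) / l ^ 2 := by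
      apply div_nonneg _ hl2.le
      linarith
    have h5 : |2 * (1 - Real.cos l) / l ^ 2| * |Real.cos (l * c + r)| ≤ 2 * (1 - Real.cos l) / l ^ 2 := by
      rw [abs_of_nonneg h4]
      exact mul_le_of_le_one_right h4 (Real.abs_cos_le_one _)
    refine h5.trans ?_
    have hp : 0 < 1 + l ^ 2 := by linarith
    rcases le_total (l ^ 2) 4 with h6 | h6
    · have h7 : 2 * (1 - Real.cos l) / l ^ 2 ≤ 1 := by
        rw [div_le_one hl2]
        linarith
      have h8 : (1 : ℝ) ≤ 5 / (1 + l ^ 2) := by
        rw [le_div_iff₀ hp]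
        linarith
      exact h7.trans h8
    · rw [div_le_div_iff₀ hl2 hp]
      nlinarith

end Pool.Agent.H880.FP.TRI

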